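import Mathlib
import Pool.Agent.H46.Flow

set_option autoImplicit false

namespace Pool.Agent.Results.MP_0b8746_pr.Disproof

open MeasureTheory Pool.Agent.H46.FlowDefs Pool.Agent.H46.Flow Filter

lemma strong (μ : Measure ℝ) [IsProbabilityMeasure μ] (h0 : ∀ᵐ x ∂μ, 0 ≤ x)
    (h2 : MemLp id 2 μ) (c : ℝ) (hc : 0 < c) :
    ∃ m0 : ℕ, ∀ m ≥ m0, ∃ n1 : ℕ, ∀ n ≥ n1, Integrable (optMakespan m n) (law m n μ) ∧
      ∫ T, optMakespan m n T ∂(law m n μ) - ((n : ℝ) + m - 1) * ∫ x, x ∂μ <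
        c * Real.sqrt (m * n) := by
  obtain ⟨b, hb1, hb⟩ := tail_small μ h0 h2 ((c / 4) ^ 2) (by positivity)
  refine ⟨⌈(48 * b / c) ^ 4⌉₊ + 1, fun m hm => ?_⟩
  have hm1 : (1 : ℝ) ≤ m := by exact_mod_cast (show 1 ≤ m by omega)
  have hm2 : (48 * b / c) ^ 4 ≤ m :=
    (Nat.le_ceil _).trans (by exact_mod_cast (show ⌈(48 * b / c) ^ 4⌉₊ ≤ m by omega))
  set K : ℝ := m * (2 * m + 1) with hK
  have hK0 : 0 < K := by positivity
  obtain ⟨b2, hb21, hb2⟩ := tail_small μ h0 h2 ((c / (8 * K)) ^ 2) (by positivity)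
  refine ⟨⌈(8 * K * b2 / c) ^ 2⌉₊ + 1, fun n hn => ?_⟩
  have hn1 : (1 : ℝ) ≤ n := by exact_mod_cast (show 1 ≤ n by omega)
  have hn2 : (8 * K * b2 / c) ^ 2 ≤ n :=
    (Nat.le_ceil _).trans (by exact_mod_cast (show ⌈(8 * K * b2 / c) ^ 2⌉₊ ≤ n by omega))
  set s := Real.sqrt n with hs
  set r := Real.sqrt m with hr
  set q := Real.sqrt r with hq
  have hs2 : s ^ 2 = n := Real.sq_sqrt (by positivity)
  have hr2 : r ^ 2 = m := Real.sq_sqrt (by positivity)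
  have hs1 : 1 ≤ s := Real.one_le_sqrt.mpr hn1
  have hr1 : 1 ≤ r := Real.one_le_sqrt.mpr hm1
  have hq2 : q ^ 2 = r := Real.sq_sqrt (by positivity)
  have hq1 : 1 ≤ q := Real.one_le_sqrt.mpr hr1
  have hrs : Real.sqrt (m * n) = r * s := Real.sqrt_mul (by positivity) _
  have hq3 : 48 * b / c ≤ q := by
    refine le_of_pow_le_pow_left₀ (n := 4) (by norm_num) (by positivity) (hm2.trans (le_of_eq ?_))
    rw [← hr2, ← hq2]; ring
  have hs3 : 8 * K * b2 / c ≤ s :=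
    le_of_pow_le_pow_left₀ (n := 2) (by norm_num) (by positivity) (hn2.trans hs2.ge)
  have hlog : Real.log m ≤ 4 * q := by
    have : (m : ℝ) = q ^ 4 := by rw [← hr2, ← hq2]; ring
    rw [this, Real.log_pow]
    have := Real.log_le_sub_one_of_pos (show 0 < q by positivity)
    push_cast
    linarith
  have hlog0 : 0 ≤ Real.log m := Real.log_nonneg hm1
  obtain ⟨hi1, hle⟩ := general μ h0 h2 m n (by omega) b b2 (b * s * Real.log m) (1 / (b * s))
    (c / 4 * (r * s)) (c / (8 * K) * (r * s)) (by linarith) (by linarith) (by positivity)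
    (by positivity) (by positivity) (by positivity)
  refine ⟨hi1, ?_⟩
  have hτ : 0 ≤ ∫ x, x ∂μ := integral_nonneg_of_ae h0
  rw [hrs]
  have e1 : Real.exp (-(1 / (b * s) * (b * s * Real.log m))) = 1 / m := by
    have : 1 / (b * s) * (b * s * Real.log m) = Real.log m := by field_simp
    rw [this, Real.exp_neg, Real.exp_log (by positivity), one_div]
  have e2 : Real.exp (n * (b / 2) ^ 2 * (1 / (b * s)) ^ 2 / 2) ≤ 3 := by
    have : n * (b / 2) ^ 2 * (1 / (b * s)) ^ 2 / 2 = 1 / 8 := by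
      rw [← hs2]; field_simp; ring
    rw [this]
    exact (Real.exp_le_exp.mpr (by norm_num : (1 / 8 : ℝ) ≤ 1)).trans
      (Real.exp_one_lt_d9.le.trans (by norm_num))
  rw [e1, ← hK] at hle
  have t1 : m * (1 / m / (1 / (b * s)) * Real.exp (n * (b / 2) ^ 2 * (1 / (b * s)) ^ 2 / 2)) ≤
      3 * (b * s) := by
    have : ∀ E : ℝ, m * (1 / m / (1 / (b * s)) * E) = E * (b * s) := fun E => by field_simp
    rw [this]
    gcongr
  have t2 : m * (n * (∫ x, hi b x ^ 2 ∂μ) / (2 * (c / 4 * (r * s)))) ≤ c / 8 * (r * s) := by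
    calc _ ≤ m * (n * (c / 4) ^ 2 / (2 * (c / 4 * (r * s)))) := by gcongr
      _ = _ := by rw [← hs2, ← hr2]; field_simp; ring
  have t3 : m * (K / (2 * (c / (8 * K) * (r * s))) * (n * ∫ x, hi b2 x ^ 2 ∂μ)) ≤
      c / 16 * (r * s) := by
    calc _ ≤ m * (K / (2 * (c / (8 * K) * (r * s))) * (n * (c / (8 * K)) ^ 2)) := by gcongr
      _ = _ := by rw [← hs2, ← hr2]; field_simp; ring
  have t4 : K * (b2 + c / (8 * K) * (r * s) / 2) = K * b2 + c / 16 * (r * s) := by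
    field_simp; ring
  have t5 : K * b2 ≤ c / 8 * (r * s) := by
    rw [div_le_iff₀ hc] at hs3
    have : c * s ≤ c * (r * s) := by gcongr; nlinarith
    linarith
  have t6 : b * s * Real.log m + 3 * (b * s) ≤ c / 4 * (r * s) := by
    rw [div_le_iff₀ hc] at hq3
    have a1 : Real.log m + 3 ≤ 7 * q := by linarith
    have a2 : b * (Real.log m + 3) ≤ b * (7 * q) := by gcongr
    have a3 : b * (7 * q) ≤ c / 4 * r := by rw [← hq2]; nlinarith
    nlinarith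
  have t7 : 0 ≤ ((m : ℝ) - 1) * ∫ x, x ∂μ := mul_nonneg (by linarith) hτ
  have t8 : 0 < c * (r * s) := by positivity
  rw [mul_add (m : ℝ), mul_add (m : ℝ), t4] at hle
  nlinarith

theorem result (μ : Measure ℝ) [IsProbabilityMeasure μ] (h0 : ∀ᵐ x ∂μ, 0 ≤ x)
    (h2 : MemLp id 2 μ) :
    (∀ c : ℝ, 0 < c → ∃ m0 : ℕ, ∀ m ≥ m0, ∃ n1 : ℕ, ∀ n ≥ n1,
      Integrable (optMakespan m n) (law m n μ) ∧
      ∫ T, optMakespan m n T ∂(law m n μ) - ((n : ℝ) + m - 1) * ∫ x, x ∂μ <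
        c * Real.sqrt (m * n)) ∧
    (∀ c : ℝ, 0 < c → ∀ n0 : ℕ, ∃ m ≥ 3, ∃ n ≥ n0, 1 ≤ n ∧
      Integrable (optMakespan m n) (law m n μ) ∧
      ∫ T, optMakespan m n T ∂(law m n μ) - ((n : ℝ) + m - 1) * ∫ x, x ∂μ <
        c * Real.sqrt (m * n)) := by
  refine ⟨strong μ h0 h2, fun c hc n0 => ?_⟩
  obtain ⟨m0, hm⟩ := strong μ h0 h2 c hc
  obtain ⟨n1, hn⟩ := hm (m0 + 3) (by omega)
  exact ⟨m0 + 3, by omega, n1 + n0 + 1, by omega, by omega, hn _ (by omega)⟩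

end Pool.Agent.Results.MP_0b8746_pr.Disproof
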